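import Mathlib

set_option autoImplicit false

/-!
MP_4ec73f_lc: there are `2 ^ (2 ^ c)` isomorphism classes of Boolean algebras of sets of reals
(in ZFC).
-/

namespace Pool.Agent.Results.MP_4ec73f_lc.MaxCount

open Set

/-- A Boolean algebra of sets of reals: a family of subsets of the line that contains the empty
set and the whole line and is closed under finite unions and complements. -/
structure SetAlg where
  sets : Set (Set ℝ)
  empty_mem : ∅ ∈ sets
  univ_mem : univ ∈ sets
  union_mem : ∀ a ∈ sets, ∀ b ∈ sets, a ∪ b ∈ sets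
  compl_mem : ∀ a ∈ sets, aᶜ ∈ sets

/-- Isomorphism: a bijection preserving unions, intersections and complements. -/
def Iso (B C : SetAlg) : Prop :=
  ∃ f : B.sets ≃ C.sets,
    (∀ a b c : B.sets, (c : Set ℝ) = (a : Set ℝ) ∪ (b : Set ℝ) →
      (f c : Set ℝ) = (f a : Set ℝ) ∪ (f b : Set ℝ)) ∧
    (∀ a b c : B.sets, (c : Set ℝ) = (a : Set ℝ) ∩ (b : Set ℝ) →
      (f c : Set ℝ) = (f a : Set ℝ) ∩ (f b : Set ℝ)) ∧
    (∀ a c : B.sets, (c : Set ℝ) = (a : Set ℝ)ᶜ → (f c : Set ℝ) = (f a : Set ℝ)ᶜ)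

theorem SetAlg.inter_mem (B : SetAlg) {a b : Set ℝ} (ha : a ∈ B.sets) (hb : b ∈ B.sets) :
    a ∩ b ∈ B.sets := by
  have h := B.compl_mem _ (B.union_mem _ (B.compl_mem _ ha) _ (B.compl_mem _ hb))
  rwa [compl_union, compl_compl, compl_compl] at h

theorem Iso.refl (B : SetAlg) : Iso B B :=
  ⟨Equiv.refl _, fun _ _ _ h => h, fun _ _ _ h => h, fun _ _ h => h⟩

theorem Iso.symm {B C : SetAlg} (h : Iso B C) : Iso C B := by
  obtain ⟨f, h1, h2, h3⟩ := h
  refine ⟨f.symm, ?_, ?_, ?_⟩
  · intro a b c hc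
    have e1 := h1 (f.symm a) (f.symm b)
      ⟨(f.symm a : Set ℝ) ∪ f.symm b, B.union_mem _ (f.symm a).2 _ (f.symm b).2⟩ rfl
    rw [f.apply_symm_apply, f.apply_symm_apply, ← hc] at e1
    have e2 := f.symm_apply_eq.mpr (Subtype.ext e1.symm)
    rw [e2]
  · intro a b c hc
    have e1 := h2 (f.symm a) (f.symm b)
      ⟨(f.symm a : Set ℝ) ∩ f.symm b, B.inter_mem (f.symm a).2 (f.symm b).2⟩ rfl
    rw [f.apply_symm_apply, f.apply_symm_apply, ← hc] at e1
    have e2 := f.symm_apply_eq.mpr (Subtype.ext e1.symm)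
    rw [e2]
  · intro a c hc
    have e1 := h3 (f.symm a) ⟨(f.symm a : Set ℝ)ᶜ, B.compl_mem _ (f.symm a).2⟩ rfl
    rw [f.apply_symm_apply, ← hc] at e1
    have e2 := f.symm_apply_eq.mpr (Subtype.ext e1.symm)
    rw [e2]

theorem Iso.trans {B C D : SetAlg} (h : Iso B C) (h' : Iso C D) : Iso B D := by
  obtain ⟨f, h1, h2, h3⟩ := h
  obtain ⟨g, g1, g2, g3⟩ := h'
  exact ⟨f.trans g, fun a b c hc => g1 _ _ _ (h1 a b c hc), fun a b c hc => g2 _ _ _ (h2 a b c hc),
    fun a c hc => g3 _ _ (h3 a c hc)⟩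

/-- The isomorphism relation as an equivalence relation. -/
def isoSetoid : Setoid SetAlg := ⟨Iso, Iso.refl, Iso.symm, Iso.trans⟩

/-- Between algebras containing all singletons, an isomorphism is induced by a point map. -/
theorem Iso.point {B C : SetAlg} (h : Iso B C) (hB : ∀ x : ℝ, {x} ∈ B.sets)
    (hC : ∀ x : ℝ, {x} ∈ C.sets) : ∃ π : ℝ → ℝ, C.sets = (fun b => π '' b) '' B.sets := by
  obtain ⟨f, h1, _, _⟩ := h
  have hmono : ∀ a b : B.sets, (a : Set ℝ) ⊆ b ↔ (f a : Set ℝ) ⊆ f b := by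
    intro a b
    constructor
    · intro hab
      have := h1 a b b (union_eq_right.mpr hab).symm
      rw [this]
      exact subset_union_left
    · intro hab
      have e1 := h1 a b ⟨(a : Set ℝ) ∪ b, B.union_mem _ a.2 _ b.2⟩ rfl
      rw [union_eq_right.mpr hab] at e1
      have e2 := f.injective (Subtype.ext e1)
      have e3 : (a : Set ℝ) ∪ b = b := congrArg Subtype.val e2
      exact union_eq_right.mp e3
  have hempty : (f ⟨∅, B.empty_mem⟩ : Set ℝ) = ∅ := by
    have e1 := (hmono ⟨∅, B.empty_mem⟩ (f.symm ⟨∅, C.empty_mem⟩)).mp (empty_subset _)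
    rw [f.apply_symm_apply] at e1
    exact subset_empty_iff.mp e1
  have hne : ∀ a : B.sets, (a : Set ℝ).Nonempty → (f a : Set ℝ).Nonempty := by
    intro a ha
    by_contra hcon
    rw [not_nonempty_iff_eq_empty, ← hempty] at hcon
    have e1 := congrArg Subtype.val (f.injective (Subtype.ext hcon))
    simp only at e1
    rw [e1] at ha
    exact not_nonempty_empty ha
  have hne' : ∀ a : C.sets, (a : Set ℝ).Nonempty → (f.symm a : Set ℝ).Nonempty := by
    intro a ha
    by_contra hcon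
    rw [not_nonempty_iff_eq_empty] at hcon
    have e1 : f.symm a = ⟨∅, B.empty_mem⟩ := Subtype.ext hcon
    have e2 : a = f ⟨∅, B.empty_mem⟩ := by rw [← e1, f.apply_symm_apply]
    rw [e2, hempty] at ha
    exact not_nonempty_empty ha
  have hat : ∀ x : ℝ, ∃ y : ℝ, (f ⟨{x}, hB x⟩ : Set ℝ) = {y} := by
    intro x
    obtain ⟨y, hy⟩ := hne ⟨{x}, hB x⟩ (singleton_nonempty x)
    refine ⟨y, ?_⟩
    have e1 : (f.symm ⟨{y}, hC y⟩ : Set ℝ) ⊆ {x} := by
      rw [hmono (f.symm ⟨{y}, hC y⟩) ⟨{x}, hB x⟩, f.apply_symm_apply]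
      exact singleton_subset_iff.mpr hy
    have e2 : (f.symm ⟨{y}, hC y⟩ : Set ℝ) = {x} :=
      (hne' ⟨{y}, hC y⟩ (singleton_nonempty y)).subset_singleton_iff.mp e1
    have e3 : f.symm ⟨{y}, hC y⟩ = ⟨{x}, hB x⟩ := Subtype.ext e2
    rw [← e3, f.apply_symm_apply]
  choose π hπ using hat
  refine ⟨π, ?_⟩
  have himg : ∀ b : B.sets, (f b : Set ℝ) = π '' (b : Set ℝ) := by
    intro b
    ext y
    constructor
    · intro hy
      have e1 : (f.symm ⟨{y}, hC y⟩ : Set ℝ) ⊆ b := by
        rw [hmono (f.symm ⟨{y}, hC y⟩) b, f.apply_symm_apply]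
        exact singleton_subset_iff.mpr hy
      obtain ⟨x, hx⟩ := hne' ⟨{y}, hC y⟩ (singleton_nonempty y)
      refine ⟨x, e1 hx, ?_⟩
      have e2 : (f ⟨{x}, hB x⟩ : Set ℝ) ⊆ {y} := by
        have := (hmono ⟨{x}, hB x⟩ (f.symm ⟨{y}, hC y⟩)).mp (singleton_subset_iff.mpr hx)
        rwa [f.apply_symm_apply] at this
      rw [hπ] at e2
      exact singleton_subset_singleton.mp e2
    · rintro ⟨x, hx, rfl⟩
      have e1 := (hmono ⟨{x}, hB x⟩ b).mp (singleton_subset_iff.mpr hx)
      rw [hπ] at e1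
      exact singleton_subset_iff.mp e1
  ext s
  constructor
  · intro hs
    refine ⟨f.symm ⟨s, hs⟩, (f.symm ⟨s, hs⟩).2, ?_⟩
    show π '' _ = s
    rw [← himg, f.apply_symm_apply]
  · rintro ⟨b, hb, rfl⟩
    show π '' b ∈ C.sets
    have := himg ⟨b, hb⟩
    rw [← this]
    exact (f ⟨b, hb⟩).2

/-- index type of the independent family -/
abbrev J := Finset ℝ × Finset (Finset ℝ)

open Classical in
/-- the independent family -/
noncomputable def ind (X : Set ℝ) : Set J := {p | p.1.filter (· ∈ X) ∈ p.2}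

theorem ind_indep (X : Set ℝ) (T : Finset (Set ℝ)) (hX : X ∉ T) (E : Finset J) :
    ∃ p q : J, p ∉ E ∧ q ∉ E ∧ p ∈ ind X ∧ q ∉ ind X ∧ ∀ Y ∈ T, (p ∈ ind Y ↔ q ∈ ind Y) := by
  classical
  have hsep : ∀ Y : Set ℝ, ∃ r : ℝ, Y ∈ T → ¬ (r ∈ X ↔ r ∈ Y) := by
    intro Y
    by_cases hY : Y ∈ T
    · have hne : X ≠ Y := fun h => hX (h ▸ hY)
      by_contra hcon
      push Not at hcon
      exact hne (Set.ext (fun r => (hcon r).2))
    · exact ⟨0, fun h => absurd h hY⟩
  choose r hr using hsep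
  obtain ⟨w, hw⟩ := Infinite.exists_notMem_finset (E.biUnion (fun p => p.1))
  let F : Finset ℝ := T.image r ∪ {w}
  have hwF : w ∈ F := Finset.mem_union_right _ (Finset.mem_singleton_self w)
  have hFE : ∀ A, (F, A) ∉ E := by
    intro A hA
    exact hw (Finset.mem_biUnion.mpr ⟨(F, A), hA, hwF⟩)
  have hdiff : ∀ Y ∈ T, F.filter (· ∈ X) ≠ F.filter (· ∈ Y) := by
    intro Y hY h
    have hrF : r Y ∈ F := Finset.mem_union_left _ (Finset.mem_image_of_mem r hY)
    apply hr Y hY
    have := Finset.ext_iff.mp h (r Y)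
    simpa [hrF] using this
  refine ⟨(F, {F.filter (· ∈ X)}), (F, ∅), hFE _, hFE _, ?_, ?_, ?_⟩
  · simp [ind]
  · simp [ind]
  · intro Y hY
    have := hdiff Y hY
    simp only [ind, mem_ofPred_eq, Finset.mem_singleton, Finset.notMem_empty, iff_false]
    exact fun h => this h.symm

theorem exists_equiv : Nonempty (ℝ ≃ J) := by
  rw [← Cardinal.eq]
  simp [J]

/-- the algebra attached to a family `S` of subsets of the line -/
noncomputable def alg (e : ℝ ≃ J) (S : Set (Set ℝ)) : SetAlg where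
  sets := {C | ∃ (T : Finset (Set ℝ)) (E : Finset J), (∀ Y ∈ T, Y ∈ S) ∧
    ∀ p q : ℝ, e p ∉ E → e q ∉ E → (∀ Y ∈ T, (e p ∈ ind Y ↔ e q ∈ ind Y)) → (p ∈ C ↔ q ∈ C)}
  empty_mem := ⟨∅, ∅, by simp, by simp⟩
  univ_mem := ⟨∅, ∅, by simp, by simp⟩
  union_mem := by
    classical
    rintro a ⟨T, E, h1, h2⟩ b ⟨T', E', h1', h2'⟩
    refine ⟨T ∪ T', E ∪ E', ?_, ?_⟩
    · intro Y hY
      rcases Finset.mem_union.mp hY with h | h
      · exact h1 Y h
      · exact h1' Y h
    · intro p q hp hq h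
      have e1 := h2 p q (fun h => hp (Finset.mem_union_left _ h))
        (fun h => hq (Finset.mem_union_left _ h)) (fun Y hY => h Y (Finset.mem_union_left _ hY))
      have e2 := h2' p q (fun h => hp (Finset.mem_union_right _ h))
        (fun h => hq (Finset.mem_union_right _ h)) (fun Y hY => h Y (Finset.mem_union_right _ hY))
      simp only [mem_union, e1, e2]
  compl_mem := by
    rintro a ⟨T, E, h1, h2⟩
    refine ⟨T, E, h1, fun p q hp hq h => ?_⟩
    simp only [mem_compl_iff, h2 p q hp hq h]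

theorem alg_singleton (e : ℝ ≃ J) (S : Set (Set ℝ)) (x : ℝ) : {x} ∈ (alg e S).sets := by
  refine ⟨∅, {e x}, by simp, ?_⟩
  intro p q hp hq _
  have h1 : p ≠ x := fun h => hp (by simp [h])
  have h2 : q ≠ x := fun h => hq (by simp [h])
  simp [h1, h2]

theorem alg_injective (e : ℝ ≃ J) : Function.Injective (fun S => (alg e S).sets) := by
  have key : ∀ S S' : Set (Set ℝ), (alg e S).sets = (alg e S').sets → S ⊆ S' := by
    intro S S' h X hX
    by_contra hX'
    have h1 : (e ⁻¹' ind X) ∈ (alg e S).sets := by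
      refine ⟨{X}, ∅, by simpa using hX, ?_⟩
      intro p q _ _ h
      exact h X (Finset.mem_singleton_self X)
    rw [h] at h1
    obtain ⟨T, E, h2, h3⟩ := h1
    have hXT : X ∉ T := fun hXT => hX' (h2 X hXT)
    obtain ⟨p, q, hp, hq, hpX, hqX, hY⟩ := ind_indep X T hXT E
    have h4 := h3 (e.symm p) (e.symm q) (by simpa using hp) (by simpa using hq) (by simpa using hY)
    simp only [mem_preimage, Equiv.apply_symm_apply] at h4
    exact hqX (h4.mp hpX)
  intro S S' h
  exact Subset.antisymm (key S S' h) (key S' S h.symm)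

/-- The number of isomorphism classes of Boolean algebras of sets of reals is `2 ^ (2 ^ c)`. -/
theorem result : Cardinal.mk (Quotient isoSetoid) =
    (2 : Cardinal.{0}) ^ ((2 : Cardinal.{0}) ^ Cardinal.continuum.{0}) := by
  classical
  have hSS : Cardinal.mk (Set (Set ℝ)) =
      (2 : Cardinal.{0}) ^ ((2 : Cardinal.{0}) ^ Cardinal.continuum.{0}) := by
    rw [Cardinal.mk_set, Cardinal.mk_set, Cardinal.mk_real]
  apply le_antisymm
  · rw [← hSS]
    refine le_trans Cardinal.mk_quotient_le ?_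
    refine Cardinal.mk_le_of_injective (f := SetAlg.sets) ?_
    intro B C h
    cases B; cases C
    simp only at h
    subst h
    rfl
  · obtain ⟨e⟩ := exists_equiv
    let q : Set (Set ℝ) → Quotient isoSetoid := fun S => Quotient.mk isoSetoid (alg e S)
    let rep : Quotient isoSetoid → Set (Set ℝ) := fun c => if h : ∃ S, q S = c then h.choose else ∅
    have hrep : ∀ S, q (rep (q S)) = q S := by
      intro S
      have h : ∃ S', q S' = q S := ⟨S, rfl⟩
      simp only [rep, dif_pos h]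
      exact h.choose_spec
    have hiso : ∀ S, Iso (alg e (rep (q S))) (alg e S) := fun S =>
      Quotient.exact (s := isoSetoid) (hrep S)
    have hpt := fun S => (hiso S).point (alg_singleton e _) (alg_singleton e _)
    choose π hπ using hpt
    have hinj : Function.Injective (fun S => (q S, π S)) := by
      intro S S' h
      have e1 : q S = q S' := congrArg Prod.fst h
      have e2 : π S = π S' := congrArg Prod.snd h
      apply alg_injective e
      show (alg e S).sets = (alg e S').sets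
      rw [hπ S, hπ S', e1, e2]
    have hle := Cardinal.mk_le_of_injective hinj
    rw [hSS, Cardinal.mk_prod] at hle
    simp only [Cardinal.lift_id] at hle
    have hRR : Cardinal.mk (ℝ → ℝ) = (2 : Cardinal.{0}) ^ Cardinal.continuum.{0} := by
      rw [← Cardinal.power_def, Cardinal.mk_real,
        Cardinal.power_self_eq Cardinal.aleph0_le_continuum]
    rw [hRR] at hle
    by_contra hcon
    push Not at hcon
    refine absurd hle (not_le.mpr (Cardinal.mul_lt_of_lt ?_ hcon (Cardinal.cantor _)))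
    exact le_trans (le_trans Cardinal.aleph0_le_continuum (Cardinal.cantor _).le)
      (Cardinal.cantor _).le

end Pool.Agent.Results.MP_4ec73f_lc.MaxCount
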